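import Mathlib

namespace Pool.Agent.H.MP_4af00a_nt

open Finset Nat

lemma Fs (m : ℕ) : ((m + 1)! : ℚ) = (m + 1) * m ! := by rw [factorial_succ]; push_cast; ring

lemma Ch (a b : ℕ) : ((a + b).choose a : ℚ) = (a + b)! / (a ! * b !) := by
  have h : ((a + b).choose a : ℚ) * b ! * a ! = (a + b)! := by
    have := Nat.add_choose_mul_factorial_mul_factorial b a
    rw [add_comm b a] at this
    exact_mod_cast this
  rw [← h]; field_simp

/-- the summand of the Domb numbers in antidiagonal form -/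
def T (k j : ℕ) : ℚ := ((k + j)! : ℚ) ^ 2 * (2 * k)! * (2 * j)! / ((k ! : ℚ) ^ 4 * (j ! : ℚ) ^ 4)

def D (n : ℕ) : ℚ := ∑ x ∈ antidiagonal n, T x.1 x.2

lemma D_eq (n : ℕ) : D n = ∑ k ∈ range (n + 1),
    ((n.choose k : ℚ) ^ 2 * ((2 * k).choose k : ℚ) * ((2 * (n - k)).choose (n - k) : ℚ)) := by
  rw [D, Finset.Nat.sum_antidiagonal_eq_sum_range_succ (fun k j => T k j)]
  refine sum_congr rfl fun k hk => ?_
  obtain ⟨j, rfl⟩ : ∃ j, n = k + j := ⟨n - k, by have := mem_range.1 hk; omega⟩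
  rw [Nat.add_sub_cancel_left, Ch, two_mul k, Ch, two_mul j, Ch, T, two_mul k, two_mul j]
  field_simp

lemma T_r (k j : ℕ) : T k (j + 1) = T k j * (2 * ((k : ℚ) + j + 1) ^ 2 * (2 * j + 1) / (j + 1) ^ 3) := by
  unfold T
  rw [show k + (j + 1) = (k + j) + 1 by ring, show 2 * (j + 1) = (2 * j + 1) + 1 by ring,
    Fs, Fs, Fs, Fs]
  push_cast
  field_simp
  ring

lemma T_l (k j : ℕ) : T (k + 1) j = T k j * (2 * ((k : ℚ) + j + 1) ^ 2 * (2 * k + 1) / (k + 1) ^ 3) := by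
  unfold T
  rw [show k + 1 + j = (k + j) + 1 by ring, show 2 * (k + 1) = (2 * k + 1) + 1 by ring,
    Fs, Fs, Fs, Fs]
  push_cast
  field_simp
  ring

lemma odd_ne (j : ℕ) (c : ℤ) : (2 * (j : ℚ) + (2 * c + 1)) ≠ 0 := by
  have : (2 * (j : ℤ) + (2 * c + 1)) ≠ 0 := by omega
  exact_mod_cast this

lemma o1 (j : ℕ) : (2 * (j : ℚ) - 1) ≠ 0 := by
  have := odd_ne j (-1); push_cast at this; intro h; apply this; linarith
lemma o3 (j : ℕ) : (2 * (j : ℚ) - 3) ≠ 0 := by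
  have := odd_ne j (-2); push_cast at this; intro h; apply this; linarith

lemma tele (H G : ℕ → ℕ → ℚ) (n : ℕ) (h1 : ∀ k j, H k (j + 1) = G (k + 1) j)
    (h2 : ∀ k, H k 0 = 0) (h3 : ∀ j, G 0 j = 0) :
    ∑ x ∈ antidiagonal (n + 1), (H x.1 x.2 - G x.1 x.2) = 0 := by
  rw [sum_sub_distrib, Finset.Nat.sum_antidiagonal_succ' (f := fun x => H x.1 x.2),
    Finset.Nat.sum_antidiagonal_succ (f := fun x => G x.1 x.2)]
  simp [h1, h2, h3]

lemma shift1 (n : ℕ) : ∑ x ∈ antidiagonal (n + 1), T x.1 x.2 * ((x.2 : ℚ) ^ 3 / (2 * x.2 - 1)) =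
    2 * ((n : ℚ) + 1) ^ 2 * D n := by
  rw [Finset.Nat.sum_antidiagonal_succ' (f := fun x => T x.1 x.2 * ((x.2 : ℚ) ^ 3 / (2 * x.2 - 1))),
    D, mul_sum]
  simp only [Nat.cast_zero, ne_eq, OfNat.ofNat_ne_zero, not_false_eq_true, zero_pow, zero_div,
    mul_zero, zero_add]
  refine sum_congr rfl fun x hx => ?_
  have h := HasAntidiagonal.mem_antidiagonal.1 hx
  rw [T_r, ← h]
  push_cast
  have : (2 * ((x.2 : ℚ) + 1) - 1) ≠ 0 := by have := o1 (x.2 + 1); push_cast at this; exact this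
  field_simp
  ring

lemma shift2 (n : ℕ) : ∑ x ∈ antidiagonal (n + 2), T x.1 x.2 *
    ((x.2 : ℚ) ^ 3 * (x.2 - 1) ^ 3 / ((2 * x.2 - 1) * (2 * x.2 - 3))) =
    4 * ((n : ℚ) + 2) ^ 2 * ((n : ℚ) + 1) ^ 2 * D n := by
  rw [Finset.Nat.sum_antidiagonal_succ' (f := fun x => T x.1 x.2 *
    ((x.2 : ℚ) ^ 3 * (x.2 - 1) ^ 3 / ((2 * x.2 - 1) * (2 * x.2 - 3))))]
  simp only [Nat.cast_zero, ne_eq, OfNat.ofNat_ne_zero, not_false_eq_true, zero_pow, zero_div,
    mul_zero, zero_add, zero_mul]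
  have : 4 * ((n : ℚ) + 2) ^ 2 * ((n : ℚ) + 1) ^ 2 * D n =
      2 * ((n : ℚ) + 2) ^ 2 * (2 * ((n : ℚ) + 1) ^ 2 * D n) := by ring
  rw [this, ← shift1, mul_sum]
  refine sum_congr rfl fun x hx => ?_
  have h := HasAntidiagonal.mem_antidiagonal.1 hx
  have h' : (n : ℚ) + 2 = x.1 + x.2 + 1 := by
    have : ((x.1 + x.2 : ℕ) : ℚ) = ((n + 1 : ℕ) : ℚ) := by rw [h]
    push_cast at this; linarith
  rw [T_r, h']
  push_cast
  have h1 : (2 * ((x.2 : ℚ) + 1) - 1) ≠ 0 := by have := o1 (x.2 + 1); push_cast at this; exact this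
  have h3 : (2 * ((x.2 : ℚ) + 1) - 3) ≠ 0 := by have := o3 (x.2 + 1); push_cast at this; exact this
  have h2 := o1 x.2
  have e : (2 * ((x.2 : ℚ) + 1) - 3) = 2 * x.2 - 1 := by ring
  rw [e]
  field_simp
  ring

def P (k j : ℚ) : ℚ := 10 * j ^ 2 - 12 * j ^ 3 + 5 * k * j - 10 * k * j ^ 2 + k ^ 2 - 2 * k ^ 2 * j

theorem D_rec (n : ℕ) : ((n : ℚ) + 2) ^ 3 * D (n + 2) -
    2 * (2 * n + 3) * (5 * ((n : ℚ) + 2) ^ 2 - 5 * (n + 2) + 2) * D (n + 1) +
    64 * ((n : ℚ) + 1) ^ 3 * D n = 0 := by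
  have key := tele (fun k j => T k j * ((j : ℚ) ^ 3 * (2 * k + 1) / ((2 * j - 1) * (2 * j - 3)) *
      P (k + 1) (j - 1))) (fun k j => T k j * ((k : ℚ) ^ 3 / (2 * j - 1) * P k j)) (n + 1)
    (by
      intro k j
      rw [T_r, T_l]
      push_cast
      have h1 : (2 * ((j : ℚ) + 1) - 1) ≠ 0 := by have := o1 (j + 1); push_cast at this; exact this
      have h2 := o1 j
      have e : (2 * ((j : ℚ) + 1) - 3) = 2 * j - 1 := by ring
      have e2 : (j : ℚ) + 1 - 1 = j := by ring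
      rw [e, e2]
      field_simp
      ring) (by intro k; simp) (by intro j; simp)
  have s1 := shift1 (n + 1)
  have s2 := shift2 n
  have e : ∑ x ∈ antidiagonal (n + 1 + 1), (T x.1 x.2 * ((x.2 : ℚ) ^ 3 * (2 * x.1 + 1) /
      ((2 * x.2 - 1) * (2 * x.2 - 3)) * P (x.1 + 1) (x.2 - 1)) -
      T x.1 x.2 * ((x.1 : ℚ) ^ 3 / (2 * x.2 - 1) * P x.1 x.2)) =
      ((n : ℚ) + 2) ^ 5 * D (n + 2) - (2 * n + 3) * (5 * ((n : ℚ) + 2) ^ 2 - 5 * (n + 2) + 2) *
        ∑ x ∈ antidiagonal (n + 1 + 1), T x.1 x.2 * ((x.2 : ℚ) ^ 3 / (2 * x.2 - 1)) +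
      16 * ((n : ℚ) + 1) * ∑ x ∈ antidiagonal (n + 2), T x.1 x.2 *
        ((x.2 : ℚ) ^ 3 * (x.2 - 1) ^ 3 / ((2 * x.2 - 1) * (2 * x.2 - 3))) := by
    rw [D, mul_sum, mul_sum, mul_sum, ← sum_sub_distrib, ← sum_add_distrib]
    refine sum_congr rfl fun x hx => ?_
    have h := HasAntidiagonal.mem_antidiagonal.1 hx
    have h' : (n : ℚ) = x.1 + x.2 - 2 := by
      have : ((x.1 + x.2 : ℕ) : ℚ) = ((n + 1 + 1 : ℕ) : ℚ) := by rw [h]
      push_cast at this; linarith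
    rw [h']
    have h1 := o1 x.2
    have h3 := o3 x.2
    have h1' : (x.2 : ℚ) * 2 - 1 ≠ 0 := by rwa [mul_comm]
    have h3' : (x.2 : ℚ) * 2 - 3 ≠ 0 := by rwa [mul_comm]
    unfold P
    field_simp
    ring
  rw [e, s1, s2] at key
  push_cast at key
  have hn : ((n : ℚ) + 2) ^ 2 ≠ 0 := by positivity
  apply mul_left_cancel₀ hn
  linear_combination key

lemma D0 : D 0 = 1 := by simp [D, T]
lemma D1 : D 1 = 4 := by
  rw [D, Finset.Nat.sum_antidiagonal_succ]; simp [T, factorial]; norm_num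

/-! ### the second formula -/

lemma ch1 (m r : ℕ) : (m.choose r : ℚ) * (m + 1) = ((m + 1).choose r : ℚ) * ((m : ℚ) + 1 - r) := by
  by_cases h : r ≤ m + 1
  · have := Nat.choose_mul_succ_eq m r
    have h2 : ((m.choose r * (m + 1) : ℕ) : ℚ) = (((m + 1).choose r * (m + 1 - r) : ℕ) : ℚ) := by
      rw [this]
    push_cast [Nat.cast_sub h] at h2
    exact h2
  · rw [Nat.choose_eq_zero_of_lt (by omega), Nat.choose_eq_zero_of_lt (by omega)]; simp

lemma ch2 (m r : ℕ) : (m.choose (r + 1) : ℚ) * (r + 1) = (m.choose r : ℚ) * ((m : ℚ) - r) := by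
  by_cases h : r ≤ m
  · have := Nat.choose_succ_right_eq m r
    have h2 : ((m.choose (r + 1) * (r + 1) : ℕ) : ℚ) = ((m.choose r * (m - r) : ℕ) : ℚ) := by
      rw [this]
    push_cast [Nat.cast_sub h] at h2
    exact h2
  · rw [Nat.choose_eq_zero_of_lt (by omega), Nat.choose_eq_zero_of_lt (by omega)]; simp

lemma ch3 (m r : ℕ) : ((m + 1).choose (r + 1) : ℚ) * (r + 1) = (m.choose r : ℚ) * ((m : ℚ) + 1) := by
  have := Nat.add_one_mul_choose_eq m r
  have h2 : (((m + 1) * m.choose r : ℕ) : ℚ) = (((m + 1).choose (r + 1) * (r + 1) : ℕ) : ℚ) := by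
    rw [this]
  push_cast at h2
  linarith

def c (k : ℕ) : ℚ := ((2 * k)! : ℚ) * (3 * k)! / ((k ! : ℚ) ^ 5 * 16 ^ k)

def b (N k : ℕ) : ℚ := ((N + k).choose (3 * k) : ℚ) * c k

lemma b_down (N k : ℕ) : b N k = b (N + 1) k * (((N : ℚ) + 1 - 2 * k) / (N + 1 + k)) := by
  unfold b
  have := ch1 (N + k) (3 * k)
  rw [show N + 1 + k = N + k + 1 by ring]
  push_cast at this
  have h : ((N + k).choose (3 * k) : ℚ) = ((N + k + 1).choose (3 * k) : ℚ) *
      (((N : ℚ) + 1 - 2 * k) / (N + 1 + k)) := by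
    field_simp
    linear_combination this
  rw [h]; ring

lemma b_up (N k : ℕ) : b N (k + 1) = b N k * (((N : ℚ) + k + 1) * (N - 2 * k) * (N - 2 * k - 1) *
    (2 * k + 1) / (8 * (k + 1) ^ 4)) := by
  unfold b c
  have h1 := ch3 (N + k) (3 * k + 1 + 1)
  have h2 := ch2 (N + k) (3 * k + 1)
  have h3 := ch2 (N + k) (3 * k)
  push_cast at h1 h2 h3
  have h : ((N + k + 1).choose (3 * k + 1 + 1 + 1) : ℚ) = ((N + k).choose (3 * k) : ℚ) *
      (((N : ℚ) + k + 1) * (N - 2 * k) * (N - 2 * k - 1) / ((3 * k + 1) * (3 * k + 2) * (3 * k + 3))) := by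
    field_simp
    linear_combination (3 * (k : ℚ) + 1) * (3 * k + 2) * h1 + ((N : ℚ) + k + 1) * (3 * k + 1) * h2 +
      ((N : ℚ) + k + 1) * (N - 2 * k - 1) * h3
  rw [show N + (k + 1) = N + k + 1 by ring, show 3 * (k + 1) = 3 * k + 1 + 1 + 1 by ring,
    show 2 * (k + 1) = 2 * k + 1 + 1 by ring, h, Fs, Fs, Fs, Fs, Fs, Fs]
  push_cast
  field_simp
  ring

lemma b_zero (N k : ℕ) (h : N < 2 * k) : b N k = 0 := by
  unfold b; rw [Nat.choose_eq_zero_of_lt (by omega)]; simp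

def E (N : ℕ) : ℚ := ∑ k ∈ range (N + 1), b N k

lemma E_ext (N M : ℕ) (h : N < 2 * M) : ∑ k ∈ range M, b N k = E N := by
  have key : ∀ M, N < 2 * M → ∑ k ∈ range M, b N k = ∑ k ∈ range (N / 2 + 1), b N k := by
    intro M h
    symm
    apply sum_subset (range_subset_range.2 (by omega))
    intro k _ hk
    apply b_zero
    rw [mem_range] at hk; omega
  rw [key M h, E, key (N + 1) (by omega)]

theorem E_rec (n : ℕ) : 2 * ((n : ℚ) + 2) ^ 3 * E (n + 2) -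
    (2 * n + 3) * (5 * ((n : ℚ) + 2) ^ 2 - 5 * (n + 2) + 2) * E (n + 1) +
    8 * ((n : ℚ) + 1) ^ 3 * E n = 0 := by
  rw [← E_ext (n + 2) (n + 3) (by omega), ← E_ext (n + 1) (n + 3) (by omega),
    ← E_ext n (n + 3) (by omega), mul_sum, mul_sum, mul_sum, ← sum_sub_distrib, ← sum_add_distrib]
  have := sum_range_sub (fun k => b (n + 2) k * ((k : ℚ) ^ 4 * (48 - 72 * (n + 2)) /
    ((n + 2 + k) * (n + 1 + k)))) (n + 3)
  rw [b_zero (n + 2) (n + 3) (by omega)] at this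
  simp only [Nat.cast_zero, ne_eq, OfNat.ofNat_ne_zero, not_false_eq_true, zero_pow, zero_div,
    mul_zero, zero_mul, sub_zero] at this
  rw [← this]
  refine sum_congr rfl fun k _ => ?_
  rw [b_down n k, b_down (n + 1) k, b_up]
  push_cast
  field_simp
  ring

theorem D_E (n : ℕ) : D n = 4 ^ n * E n := by
  induction n using Nat.twoStepInduction with
  | zero => simp [D0, E, b, c]
  | one => rw [D1]; simp [E, sum_range_succ, b, c]
  | more n h0 h1 =>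
    have a := D_rec n
    have e := E_rec n
    rw [h0, h1] at a
    have hn : ((n : ℚ) + 2) ^ 3 ≠ 0 := by positivity
    apply mul_left_cancel₀ hn
    linear_combination a - 8 * 4 ^ n * e

/-- telescoping of the outer sum -/
theorem S_eq (n : ℕ) : ∑ i ∈ range (n + 1), (3 * (i : ℚ) ^ 2 + i) / 16 ^ i * D i =
    8 / 3 * ((n : ℚ) + 1) ^ 3 * (D (n + 1) - 4 * D n) / 16 ^ (n + 1) := by
  induction n with
  | zero => simp [D0, D1]
  | succ n ih =>
    rw [sum_range_succ, ih]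
    have a := D_rec n
    push_cast
    field_simp
    linear_combination (-8 * 16 ^ (n + 1) : ℚ) * a

def y (m k : ℕ) : ℚ := b m k * (3 * k / (m + k))

theorem V_eq (n M : ℕ) (h : n + 1 < 2 * M) :
    D (n + 1) - 4 * D n = 4 ^ (n + 1) * ∑ k ∈ range M, y (n + 1) k := by
  rw [D_E, D_E, ← E_ext (n + 1) M h, ← E_ext n M (by omega)]
  have : ∑ k ∈ range M, y (n + 1) k = ∑ k ∈ range M, b (n + 1) k - ∑ k ∈ range M, b n k := by
    rw [← sum_sub_distrib]
    refine sum_congr rfl fun k _ => ?_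
    rw [b_down n k, y]
    push_cast
    field_simp
    ring
  rw [this]; ring

end Pool.Agent.H.MP_4af00a_nt
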