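import Mathlib
import Pool.Agent.H.MP_4af00a_nt.A

namespace Pool.Agent.H.MP_4af00a_nt

open Finset Nat

def t (m k : ℕ) : ℚ := 4 ^ m * y m k / (12 * ((m : ℚ) - 1))

lemma cat_eq (i : ℕ) : (catalan i : ℚ) = (2 * i)! / (i ! * i ! * (i + 1)) := by
  have h := succ_mul_catalan_eq_centralBinom i
  rw [Nat.centralBinom_eq_two_mul_choose, two_mul] at h
  have h2 : (((i + 1) * catalan i : ℕ) : ℚ) = ((i + i).choose i : ℕ) := by rw [h]
  rw [Ch] at h2
  push_cast at h2
  rw [two_mul]
  field_simp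
  field_simp at h2
  linarith

lemma t_eq (i j : ℕ) : t (2 * i + 2 + j) (i + 1) = (((i + 1) + (2 * i + j + 1)).choose (i + 1) : ℚ) *
    ((2 * i + j).choose (2 * i) : ℚ) * ((i + (i + 1)).choose i : ℚ) * (catalan i : ℚ) * 4 ^ j / 2 := by
  unfold t y b c
  rw [show 2 * i + 2 + j + (i + 1) = 3 * (i + 1) + j by ring, Ch, Ch, Ch, Ch, cat_eq,
    show 3 * (i + 1) + j = (i + 1 + (2 * i + j + 1)) + 1 by ring, Fs (i + 1 + (2 * i + j + 1)),
    Fs (2 * i + j), show 2 * (i + 1) = 2 * i + 1 + 1 by ring, Fs (2 * i + 1),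
    show i + (i + 1) = 2 * i + 1 by ring, Fs (2 * i), Fs i,
    show (16 : ℚ) ^ (i + 1) = 4 ^ (2 * i + 2) by rw [show (16 : ℚ) = 4 ^ 2 by norm_num, ← pow_mul]; ring_nf,
    pow_add (4 : ℚ) (2 * i + 2) j]
  push_cast
  have h1 : (2 * (i : ℚ) + 2 + j - 1) = 2 * i + j + 1 := by ring
  rw [h1]
  field_simp
  ring

lemma luc (n k : ℕ) : n.choose k ≡ (n % 2).choose (k % 2) * (n / 2).choose (k / 2) [MOD 2] :=
  Choose.choose_modEq_choose_mod_mul_choose_div_nat (p := 2)

lemma f_odd (i : ℕ) : Odd ((2 * i + 1).choose i) ↔ ∃ j, i + 1 = 2 ^ j := by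
  induction i using Nat.strong_induction_on with
  | _ i ih =>
    have h := luc (2 * i + 1) i
    rw [show (2 * i + 1) % 2 = 1 by omega, show (2 * i + 1) / 2 = i by omega] at h
    rcases Nat.even_or_odd' i with ⟨r, rfl | rfl⟩
    · rw [show 2 * r % 2 = 0 by omega, show 2 * r / 2 = r by omega] at h
      rcases Nat.eq_zero_or_pos r with rfl | hr
      · simp; exact ⟨0, rfl⟩
      · have h2 : 2 ∣ (2 * r).choose r := by
          rw [← Nat.centralBinom_eq_two_mul_choose]
          exact Nat.two_dvd_centralBinom_of_one_le hr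
        constructor
        · intro ho
          rw [Nat.odd_iff] at ho
          unfold Nat.ModEq at h
          simp only [Nat.choose_zero_right, one_mul] at h
          omega
        · rintro ⟨j, hj⟩
          rcases j with _ | j
          · simp at hj; omega
          · rw [pow_succ] at hj; omega
    · rw [show (2 * r + 1) % 2 = 1 by omega, show (2 * r + 1) / 2 = r by omega] at h
      have := ih r (by omega)
      unfold Nat.ModEq at h
      simp only [Nat.choose_self, one_mul] at h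
      rw [Nat.odd_iff] at this ⊢
      rw [h, this]
      constructor
      · rintro ⟨j, hj⟩; exact ⟨j + 1, by rw [pow_succ]; omega⟩
      · rintro ⟨j, hj⟩
        rcases j with _ | j
        · simp at hj
        · exact ⟨j, by rw [pow_succ] at hj; omega⟩

lemma g_odd (j : ℕ) : ∀ i, i + 1 = 2 ^ j → Odd ((3 * i + 2).choose i) := by
  induction j with
  | zero => intro i hi; obtain rfl : i = 0 := by simpa using hi
            simp
  | succ j ih =>
    intro i hi
    rw [pow_succ] at hi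
    obtain ⟨r, rfl⟩ : ∃ r, i = 2 * r + 1 := ⟨i / 2, by omega⟩
    have h := luc (3 * (2 * r + 1) + 2) (2 * r + 1)
    rw [show (3 * (2 * r + 1) + 2) % 2 = 1 by omega, show (3 * (2 * r + 1) + 2) / 2 = 3 * r + 2 by omega,
      show (2 * r + 1) % 2 = 1 by omega, show (2 * r + 1) / 2 = r by omega] at h
    have := ih r (by omega)
    unfold Nat.ModEq at h
    simp only [Nat.choose_self, one_mul] at h
    rw [Nat.odd_iff] at this ⊢
    rw [h, this]

lemma cat_f (i : ℕ) : (2 * i + 1).choose i = (2 * i + 1) * catalan i := by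
  have : (((2 * i + 1).choose i : ℕ) : ℚ) = (((2 * i + 1) * catalan i : ℕ) : ℚ) := by
    have := Ch i (i + 1)
    rw [show i + (i + 1) = 2 * i + 1 by ring] at this
    push_cast
    rw [this, cat_eq, Fs, Fs]
    push_cast
    field_simp
  exact_mod_cast this

lemma t_int (m k : ℕ) : ∃ z : ℤ, t m k = z ∧ (Odd z ↔ (m = 2 * k ∧ ∃ j, k = 2 ^ j)) := by
  rcases k with _ | i
  · refine ⟨0, by simp [t, y], ?_⟩
    simp only [Int.odd_iff]
    constructor
    · intro h; omega
    · rintro ⟨_, j, hj⟩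
      have := Nat.two_pow_pos j
      omega
  by_cases h : m < 2 * (i + 1)
  · refine ⟨0, by simp [t, y, b_zero m (i + 1) h], ?_⟩
    simp only [Int.odd_iff]
    constructor
    · intro h; omega
    · rintro ⟨_, j, hj⟩; omega
  obtain ⟨j, rfl⟩ : ∃ j, m = 2 * i + 2 + j := ⟨m - (2 * i + 2), by omega⟩
  rw [t_eq]
  rcases j with _ | j
  · refine ⟨((3 * i + 2).choose i * (2 * i + 1).choose i * catalan i : ℕ), ?_, ?_⟩
    · have := ch2 (3 * i + 2) i
      rw [show i + 1 + (2 * i + 0 + 1) = 3 * i + 2 by ring, show i + (i + 1) = 2 * i + 1 by ring]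
      push_cast at this ⊢
      have h2 : ((3 * i + 2).choose (i + 1) : ℚ) = 2 * ((3 * i + 2).choose i : ℚ) := by
        have hi : (i : ℚ) + 1 ≠ 0 := by positivity
        apply mul_right_cancel₀ hi
        linear_combination this
      rw [h2]; simp; ring
    · rw [Int.odd_coe_nat, Nat.odd_mul, Nat.odd_mul, f_odd]
      constructor
      · rintro ⟨⟨_, h⟩, _⟩; exact ⟨by ring, h⟩
      · rintro ⟨_, j, hj⟩
        refine ⟨⟨g_odd j i hj, j, hj⟩, ?_⟩
        have := (f_odd i).2 ⟨j, hj⟩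
        rw [cat_f, Nat.odd_mul] at this
        exact this.2
  · refine ⟨2 * ((((i + 1) + (2 * i + (j + 1) + 1)).choose (i + 1) *
      (2 * i + (j + 1)).choose (2 * i) * (i + (i + 1)).choose i * catalan i * 4 ^ j : ℕ) : ℤ), ?_, ?_⟩
    · push_cast; ring
    · simp only [Int.odd_iff]
      constructor
      · intro h; omega
      · rintro ⟨h, _⟩; omega

theorem sum_t (m : ℕ) (hm : 1 < m) :
    ∃ z : ℤ, ∑ k ∈ range m, t m k = z ∧ (Odd z ↔ ∃ j, m = 2 ^ j) := by
  choose z hz using t_int m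
  refine ⟨∑ k ∈ range m, z k, by push_cast; exact sum_congr rfl fun k _ => (hz k).1, ?_⟩
  rcases Nat.even_or_odd' m with ⟨r, hr | hr⟩
  · rw [← add_sum_erase _ _ (show r ∈ range m from mem_range.2 (by omega))]
    have he : Even (∑ k ∈ (range m).erase r, z k) := by
      apply Finset.even_sum
      intro k hk
      rw [← Int.not_odd_iff_even, (hz k).2]
      have := (mem_erase.1 hk).1
      rintro ⟨h, _⟩; omega
    rw [Int.odd_add, iff_true_intro he, iff_true, (hz r).2]
    constructor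
    · rintro ⟨_, j, hj⟩; exact ⟨j + 1, by rw [pow_succ]; omega⟩
    · rintro ⟨j, hj⟩
      rcases j with _ | j
      · simp at hj; omega
      · exact ⟨hr, j, by rw [pow_succ] at hj; omega⟩
  · have he : Even (∑ k ∈ range m, z k) := by
      apply Finset.even_sum
      intro k hk
      rw [← Int.not_odd_iff_even, (hz k).2]
      rintro ⟨h, _⟩; omega
    rw [← Int.not_odd_iff_even] at he
    constructor
    · intro h; exact absurd h he
    · rintro ⟨j, hj⟩
      rcases j with _ | j
      · simp at hj; omega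
      · rw [pow_succ] at hj; omega

theorem a_eq (n : ℕ) (hn : 0 < n) : 1 / (2 * ((n + 1 : ℕ) : ℚ) ^ 3 * (((n + 1 : ℕ) : ℚ) - 1)) *
    ∑ i ∈ range (n + 1), (3 * (i : ℚ) ^ 2 + i) * 16 ^ (n + 1 - 1 - i) * D i =
    ∑ k ∈ range (n + 1), t (n + 1) k := by
  have e : ∑ i ∈ range (n + 1), (3 * (i : ℚ) ^ 2 + i) * 16 ^ (n + 1 - 1 - i) * D i =
      16 ^ n * ∑ i ∈ range (n + 1), (3 * (i : ℚ) ^ 2 + i) / 16 ^ i * D i := by
    rw [mul_sum]
    refine sum_congr rfl fun i hi => ?_
    obtain ⟨j, rfl⟩ : ∃ j, n = i + j := ⟨n - i, by have := mem_range.1 hi; omega⟩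
    rw [show i + j + 1 - 1 - i = j by omega, pow_add]
    field_simp
  rw [e, S_eq, V_eq n (n + 1) (by omega)]
  unfold t
  rw [← sum_div, ← mul_sum]
  push_cast
  have : (n : ℚ) ≠ 0 := by positivity
  have e2 : (n : ℚ) + 1 - 1 = n := by ring
  rw [e2]
  field_simp
  ring

end Pool.Agent.H.MP_4af00a_nt
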