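import Mathlib
import Pool.Agent.H.MP_4af00a_nt.A

namespace Pool.Agent.H.MP_4af00a_nt

open Finset Nat

/-! ### a Saalschutz evaluation -/

def z (x : ℚ) : ℕ → ℚ
  | 0 => 1
  | k + 1 => z x k * (((k : ℚ) - x) * (2 * k + 1) * (2 * x + 1 + 2 * k) / (4 * (k + 1) ^ 3))

def w (n : ℕ) : ℚ := ∏ j ∈ range n, (2 * (j : ℚ) + 1) / (2 * j + 2)

lemma z_down (n k : ℕ) : z n k = z ((n : ℚ) + 1) k *
    (((n : ℚ) + 1 - k) * (2 * n + 1) / ((n + 1) * (2 * n + 1 + 2 * k))) := by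
  induction k with
  | zero => simp [z]; field_simp
  | succ k ih =>
    rw [z, z, ih]
    push_cast
    field_simp
    ring

lemma z_top (n : ℕ) : z n (n + 1) = 0 := by simp [z]

theorem saal (n : ℕ) : ∑ k ∈ range (n + 1), z n k = w n ^ 2 := by
  induction n with
  | zero => simp [z, w]
  | succ n ih =>
    have h := sum_range_sub (fun k => z ((n : ℚ) + 1) k * ((k : ℚ) ^ 3 * (-12 - 16 * n) /
      ((2 * n + 1 + 2 * k) * (n + 1)))) (n + 2)
    have h0 := z_top (n + 1)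
    push_cast at h0
    rw [h0] at h
    simp only [Nat.cast_zero, ne_eq, OfNat.ofNat_ne_zero, not_false_eq_true, zero_pow, zero_div,
      mul_zero, zero_mul, sub_zero] at h
    have e : ∑ k ∈ range (n + 2), (z ((n : ℚ) + 1) (k + 1) * ((((k + 1 : ℕ) : ℚ)) ^ 3 * (-12 - 16 * n) /
        ((2 * n + 1 + 2 * ((k + 1 : ℕ) : ℚ)) * (n + 1))) - z ((n : ℚ) + 1) k * ((k : ℚ) ^ 3 * (-12 - 16 * n) /
        ((2 * n + 1 + 2 * k) * (n + 1)))) =
        (2 * (n : ℚ) + 2) ^ 2 * ∑ k ∈ range (n + 2), z ((n : ℚ) + 1) k -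
        (2 * (n : ℚ) + 1) ^ 2 * ∑ k ∈ range (n + 2), z n k := by
      rw [mul_sum, mul_sum, ← sum_sub_distrib]
      refine sum_congr rfl fun k _ => ?_
      rw [z_down n k, z]
      push_cast
      field_simp
      ring
    rw [e, sum_range_succ (fun k => z n k) (n + 1), z_top, add_zero, ih] at h
    rw [w, prod_range_succ, ← w]
    push_cast
    have hn : (2 * (n : ℚ) + 2) ^ 2 ≠ 0 := by positivity
    apply mul_left_cancel₀ hn
    field_simp
    linear_combination h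

/-! ### p-integral rationals -/

def R (p : ℕ) (hp : p.Prime) : Subring ℚ where
  carrier := {r | ¬ p ∣ r.den}
  mul_mem' := by
    intro a b ha hb h
    rcases (hp.dvd_mul).1 (h.trans (Rat.mul_den_dvd a b)) with h | h
    exacts [ha h, hb h]
  one_mem' := by simpa using hp.ne_one
  add_mem' := by
    intro a b ha hb h
    rcases (hp.dvd_mul).1 (h.trans (Rat.add_den_dvd a b)) with h | h
    exacts [ha h, hb h]
  zero_mem' := by simpa using hp.ne_one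
  neg_mem' := by intro a ha; simpa using ha

variable {p : ℕ} (hp : p.Prime)

lemma inv_mem' (m : ℕ) (h : ¬ p ∣ m) : ((m : ℚ))⁻¹ ∈ R p hp := by
  have hm : 0 < m := Nat.pos_of_ne_zero (by rintro rfl; simp at h)
  show ¬ p ∣ ((m : ℚ)⁻¹).den
  rw [Rat.inv_natCast_den_of_pos hm]; exact h

lemma inv_lt (m : ℕ) (h0 : 0 < m) (h : m < p) (x : ℚ) (hx : x = m) : x⁻¹ ∈ R p hp := by
  rw [hx]; exact inv_mem' hp m (Nat.not_dvd_of_pos_of_lt h0 h)

lemma nat_mem (m : ℕ) : (m : ℚ) ∈ R p hp := natCast_mem _ m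

/-- `M e x` : `x` is divisible by `p ^ e` in the ring of `p`-integral rationals -/
def M (e : ℕ) (x : ℚ) : Prop := ∃ r ∈ R p hp, x = (p : ℚ) ^ e * r

variable {hp}

lemma M.add {e : ℕ} {x y : ℚ} (h1 : M hp e x) (h2 : M hp e y) : M hp e (x + y) := by
  obtain ⟨a, ha, rfl⟩ := h1; obtain ⟨b, hb, rfl⟩ := h2
  exact ⟨a + b, add_mem ha hb, by ring⟩

lemma M.mul {e : ℕ} {x y : ℚ} (h1 : M hp e x) (h2 : y ∈ R p hp) : M hp e (x * y) := by
  obtain ⟨a, ha, rfl⟩ := h1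
  exact ⟨a * y, mul_mem ha h2, by ring⟩

lemma M.sum {e : ℕ} (s : Finset ℕ) (f : ℕ → ℚ) (h : ∀ i ∈ s, M hp e (f i)) :
    M hp e (∑ i ∈ s, f i) := by
  induction s using Finset.induction_on with
  | empty => exact ⟨0, zero_mem _, by simp⟩
  | insert a s ha ih =>
    rw [sum_insert ha]
    exact (h a (mem_insert_self _ _)).add (ih fun i hi => h i (mem_insert_of_mem hi))

lemma y_one (m : ℕ) : y m 1 = 3 * (m : ℚ) * (m - 1) / 8 := by
  rw [y, b_up m 0]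
  simp only [b, c]
  push_cast
  simp
  field_simp

lemma y_up (m k : ℕ) : y m (k + 1 + 1) = y m (k + 1) * (((m : ℚ) + k + 1) * (m - 2 * k - 2) *
    (m - 2 * k - 3) * (2 * k + 3) / (8 * (k + 1) * (k + 2) ^ 3)) := by
  rw [y, y, b_up m (k + 1)]
  push_cast
  field_simp
  ring

theorem y_z (n : ℕ) (hn : p = 2 * n + 1) (h3 : 3 < p) (k : ℕ) (hk : k + 1 ≤ n) :
    M hp 1 (y p (k + 1)) ∧ M hp 3 (y p (k + 1) + 3 * z n (k + 1)) := by
  have hq : (p : ℚ) = 2 * n + 1 := by rw [hn]; push_cast; ring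
  have h2 : (2 : ℚ)⁻¹ ∈ R p hp := inv_lt hp 2 (by omega) (by omega) _ (by simp)
  induction k with
  | zero =>
    rw [y_one]
    refine ⟨⟨3 * (p - 1) * (2⁻¹) ^ 3, ?_, by ring⟩, ⟨0, zero_mem _, ?_⟩⟩
    · exact mul_mem (mul_mem (nat_mem hp 3) (sub_mem (nat_mem hp p) (one_mem _))) (pow_mem h2 3)
    · simp only [z]; rw [hq]; push_cast; ring
  | succ k ih =>
    obtain ⟨⟨a, ha, e1⟩, ⟨b, hb, e2⟩⟩ := ih (by omega)
    have u1 : ((k : ℚ) + 1)⁻¹ ∈ R p hp := inv_lt hp (k + 1) (by omega) (by omega) _ (by simp)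
    have u2 : ((k : ℚ) + 2)⁻¹ ∈ R p hp := inv_lt hp (k + 2) (by omega) (by omega) _ (by simp)
    have hk' := nat_mem hp k
    have hp' := nat_mem hp p
    have c2 := nat_mem hp 2
    have c3 := nat_mem hp 3
    have g : ((p : ℚ) - 2 * k - 3) * (2 * k + 3) * (2⁻¹) ^ 3 * ((k : ℚ) + 2)⁻¹ ^ 3 ∈ R p hp :=
      mul_mem (mul_mem (mul_mem (sub_mem (sub_mem hp' (mul_mem c2 hk')) c3)
        (add_mem (mul_mem c2 hk') c3)) (pow_mem h2 3)) (pow_mem u2 3)
    have ez : z n (k + 1) = ((p : ℚ) ^ 3 * b - p ^ 1 * a) / 3 := by rw [← e1, ← e2]; ring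
    constructor
    · refine ⟨a * (((p : ℚ) + k + 1) * (p - 2 * k - 2) * ((k : ℚ) + 1)⁻¹) *
        (((p : ℚ) - 2 * k - 3) * (2 * k + 3) * (2⁻¹) ^ 3 * ((k : ℚ) + 2)⁻¹ ^ 3), ?_, ?_⟩
      · exact mul_mem (mul_mem ha (mul_mem (mul_mem (add_mem (add_mem hp' hk') (one_mem _))
          (sub_mem (sub_mem hp' (mul_mem c2 hk')) c2)) u1)) g
      · rw [y_up, e1]; field_simp; ring
    · refine ⟨(a * ((k : ℚ) + 1)⁻¹ - b * (p + 2 * k + 2)) *
        (((p : ℚ) - 2 * k - 3) * (2 * k + 3) * (2⁻¹) ^ 3 * ((k : ℚ) + 2)⁻¹ ^ 3), ?_, ?_⟩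
      · exact mul_mem (sub_mem (mul_mem ha u1) (mul_mem hb (add_mem (add_mem hp'
          (mul_mem c2 hk')) c2))) g
      · rw [y_up, e1, z, ez]
        have hn' : (n : ℚ) = (p - 1) / 2 := by rw [hq]; ring
        rw [hn']
        push_cast
        field_simp
        ring

theorem sum_y (n : ℕ) (hn : p = 2 * n + 1) (h3 : 3 < p) :
    M hp 3 (∑ k ∈ range (n + 1), y p k + 3 * (w n ^ 2 - 1)) := by
  rw [← saal, sum_range_succ', sum_range_succ']
  have : ∑ k ∈ range n, y p (k + 1) + y p 0 + 3 * (∑ k ∈ range n, z n (k + 1) + z n 0 - 1) =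
      ∑ k ∈ range n, (y p (k + 1) + 3 * z n (k + 1)) := by
    rw [sum_add_distrib, ← mul_sum]; simp [y, z]
  rw [this]
  exact M.sum _ _ fun k hk => (y_z n hn h3 k (mem_range.1 hk)).2

end Pool.Agent.H.MP_4af00a_nt
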