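import Mathlib
import Pool.Agent.H.MP_4af00a_nt.C

namespace Pool.Agent.H.MP_4af00a_nt

open Finset Nat

variable {p : ℕ} {hp : p.Prime}

lemma refl_sq (i : ℕ) (h0 : 0 < i) (h : i < p) :
    M hp 1 ((((p : ℚ) - i)⁻¹) ^ 2 - ((i : ℚ)⁻¹) ^ 2) := by
  have u1 : ((i : ℚ))⁻¹ ∈ R p hp := inv_lt hp i h0 h _ rfl
  have u2 : ((p : ℚ) - i)⁻¹ ∈ R p hp :=
    inv_lt hp (p - i) (by omega) (by omega) _ (by rw [Nat.cast_sub h.le])
  refine ⟨(2 * i - p) * ((i : ℚ)⁻¹) ^ 2 * (((p : ℚ) - i)⁻¹) ^ 2, ?_, ?_⟩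
  · exact mul_mem (mul_mem (sub_mem (mul_mem (nat_mem hp 2) (nat_mem hp i)) (nat_mem hp p))
      (pow_mem u1 2)) (pow_mem u2 2)
  · have : (i : ℚ) ≠ 0 := by positivity
    have : (p : ℚ) - i ≠ 0 := by
      have : (i : ℚ) < p := by exact_mod_cast h
      linarith
    field_simp
    ring

lemma split_par (f : ℕ → ℚ) (n : ℕ) :
    ∑ j ∈ range (2 * n), f j = ∑ j ∈ range n, f (2 * j) + ∑ j ∈ range n, f (2 * j + 1) := by
  induction n with
  | zero => simp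
  | succ n ih =>
    rw [show 2 * (n + 1) = 2 * n + 1 + 1 by ring, sum_range_succ, sum_range_succ, ih,
      sum_range_succ, sum_range_succ]; ring

theorem H2 (n : ℕ) (hn : p = 2 * n + 1) (h3 : 3 < p) :
    M hp 1 (∑ j ∈ range n, (((j : ℚ) + 1)⁻¹) ^ 2) := by
  have hq : (p : ℚ) = 2 * n + 1 := by rw [hn]; push_cast; ring
  set H := ∑ j ∈ range n, (((j : ℚ) + 1)⁻¹) ^ 2 with hH
  have s1 := split_par (fun j => (((j : ℚ) + 1)⁻¹) ^ 2) n
  have s2 := sum_range_add (fun j => (((j : ℚ) + 1)⁻¹) ^ 2) n n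
  rw [← two_mul, s1, ← hH] at s2
  have a1 : ∑ j ∈ range n, ((((2 * j + 1 : ℕ) : ℚ) + 1)⁻¹) ^ 2 = H / 4 := by
    rw [hH, sum_div]
    refine sum_congr rfl fun j _ => ?_
    push_cast; field_simp; ring
  have a2 : M hp 1 (∑ j ∈ range n, ((((2 * j : ℕ) : ℚ) + 1)⁻¹) ^ 2 - H / 4) := by
    rw [← a1, ← sum_range_reflect, ← sum_sub_distrib]
    refine M.sum _ _ fun j hj => ?_
    have hj' := mem_range.1 hj
    have := refl_sq (hp := hp) (2 * j + 2) (by omega) (by omega)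
    obtain ⟨r, rfl⟩ : ∃ r, n = j + 1 + r := ⟨n - (j + 1), by omega⟩
    rw [show j + 1 + r - 1 - j = r by omega]
    convert this using 4
    · rw [hq]; push_cast; ring
    · push_cast; ring
  have a3 : M hp 1 (∑ j ∈ range n, ((((n + j : ℕ) : ℚ) + 1)⁻¹) ^ 2 - H) := by
    rw [hH, ← sum_range_reflect, ← sum_sub_distrib]
    refine M.sum _ _ fun j hj => ?_
    have hj' := mem_range.1 hj
    have := refl_sq (hp := hp) (j + 1) (by omega) (by omega)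
    obtain ⟨r, rfl⟩ : ∃ r, n = j + 1 + r := ⟨n - (j + 1), by omega⟩
    rw [show j + 1 + r - 1 - j = r by omega]
    convert this using 4
    · rw [hq]; push_cast; ring
    · push_cast; ring
  have u3 : (3 : ℚ)⁻¹ ∈ R p hp := inv_lt hp 3 (by omega) (by omega) _ (by simp)
  have := (a2.add (a3.mul (neg_mem (one_mem _)))).mul (mul_mem (nat_mem hp 2) u3)
  convert this using 1
  rw [a1] at s2
  push_cast at s2 ⊢
  linarith

def A (p k : ℕ) : ℚ := ∏ j ∈ range k, (1 - (p : ℚ) * ((j : ℚ) + 1)⁻¹)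
def B (p k : ℕ) : ℚ := ∏ j ∈ range k, (1 - (p : ℚ) * ((j : ℚ) + 1)⁻¹ / 2)

lemma AB (h3 : 3 < p) (k : ℕ) (hk : k < p) : M hp 1 (A p k - 1) ∧
    M hp 3 (B p k ^ 2 - A p k - (p : ℚ) ^ 2 / 4 * ∑ j ∈ range k, (((j : ℚ) + 1)⁻¹) ^ 2) ∧
    (∑ j ∈ range k, (((j : ℚ) + 1)⁻¹) ^ 2) ∈ R p hp := by
  have h2 : (2 : ℚ)⁻¹ ∈ R p hp := inv_lt hp 2 (by omega) (by omega) _ (by simp)
  have hp' := nat_mem hp p
  induction k with
  | zero => exact ⟨⟨0, zero_mem _, by simp [A]⟩, ⟨0, zero_mem _, by simp [A, B]⟩, by simp⟩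
  | succ k ih =>
    obtain ⟨⟨a, ha, e1⟩, ⟨b, hb, e2⟩, hh⟩ := ih (by omega)
    have u : ((k : ℚ) + 1)⁻¹ ∈ R p hp := inv_lt hp (k + 1) (by omega) (by omega) _ (by simp)
    rw [A, B, prod_range_succ, prod_range_succ, sum_range_succ, ← A, ← B]
    generalize ((k : ℚ) + 1)⁻¹ = v at *
    generalize (∑ j ∈ range k, (((j : ℚ) + 1)⁻¹) ^ 2) = h at *
    have eA : A p k = 1 + p * a := by linear_combination e1
    have eB : B p k ^ 2 = 1 + p * a + (p : ℚ) ^ 2 / 4 * h + p ^ 3 * b := by linear_combination e2 + e1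
    refine ⟨⟨a - v - p * a * v, ?_, ?_⟩, ⟨a * v ^ 2 * (2⁻¹) ^ 2 + (2⁻¹) ^ 2 * h * (-v + p * v ^ 2 * (2⁻¹) ^ 2) +
      b * (1 - p * v * 2⁻¹) ^ 2, ?_, ?_⟩, add_mem hh (pow_mem u 2)⟩
    · exact sub_mem (sub_mem ha u) (mul_mem (mul_mem hp' ha) u)
    · rw [eA]; ring
    · exact add_mem (add_mem (mul_mem (mul_mem ha (pow_mem u 2)) (pow_mem h2 2))
        (mul_mem (mul_mem (pow_mem h2 2) hh) (add_mem (neg_mem u)
          (mul_mem (mul_mem hp' (pow_mem u 2)) (pow_mem h2 2)))))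
        (mul_mem hb (pow_mem (sub_mem (one_mem _) (mul_mem (mul_mem hp' u) h2)) 2))
    · rw [mul_pow, eB, eA]; ring

lemma A_eq (m k : ℕ) : A (m + 1) k = (-1) ^ k * (m.choose k : ℚ) := by
  induction k with
  | zero => simp [A]
  | succ k ih =>
    rw [A, prod_range_succ, ← A, ih]
    have := ch2 m k
    push_cast
    field_simp
    linear_combination (-1) ^ k * this

lemma w_eq (n : ℕ) : ((2 * n).choose n : ℚ) = 4 ^ n * w n := by
  induction n with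
  | zero => simp [w]
  | succ n ih =>
    have := Nat.succ_mul_centralBinom_succ n
    rw [Nat.centralBinom_eq_two_mul_choose, Nat.centralBinom_eq_two_mul_choose] at this
    have h : (((n + 1) * (2 * (n + 1)).choose (n + 1) : ℕ) : ℚ) =
      ((2 * (2 * n + 1) * (2 * n).choose n : ℕ) : ℚ) := by rw [this]
    push_cast at h
    rw [w, prod_range_succ, ← w]
    rw [ih] at h
    field_simp
    linear_combination 2 * h

lemma B_eq (n : ℕ) : B (2 * n + 1) n = (-1) ^ n * w n := by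
  have e : ∏ j ∈ range n, (2 * (j : ℚ) + 1) = ∏ j ∈ range n, (2 * (n : ℚ) + 1 - (2 * j + 2)) := by
    rw [← prod_range_reflect]
    refine prod_congr rfl fun j hj => ?_
    obtain ⟨r, rfl⟩ : ∃ r, n = j + 1 + r := ⟨n - (j + 1), by have := mem_range.1 hj; omega⟩
    rw [show j + 1 + r - 1 - j = r by omega]
    push_cast; ring
  have e2 : ((-1 : ℚ)) ^ n = ∏ _j ∈ range n, (-1 : ℚ) := by simp
  rw [w, prod_div_distrib, e, ← prod_div_distrib, e2, ← prod_mul_distrib, B]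
  refine prod_congr rfl fun j _ => ?_
  push_cast
  field_simp
  ring

theorem morley (n : ℕ) (hn : p = 2 * n + 1) (h3 : 3 < p) : M hp 3 (w n ^ 2 - 16 ^ n) := by
  have hq : (p : ℚ) = 2 * n + 1 := by rw [hn]; push_cast; ring
  have h2 : (2 : ℚ)⁻¹ ∈ R p hp := inv_lt hp 2 (by omega) (by omega) _ (by simp)
  obtain ⟨-, ⟨b, hb, e2⟩, -⟩ := AB (hp := hp) h3 n (by omega)
  obtain ⟨c, hc, e3⟩ := H2 (hp := hp) n hn h3
  have eA : A p n = 4 ^ n * B p n := by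
    rw [hn, A_eq, B_eq, w_eq]; ring
  have eB : B p n ^ 2 = w n ^ 2 := by
    rw [hn, B_eq, mul_pow, ← pow_mul, mul_comm n 2, pow_mul]; simp
  have hw : w n ≠ 0 := by unfold w; positivity
  have hB : B p n ≠ 0 := by
    intro h; rw [h] at eB; exact hw (by simpa using eB.symm)
  have m1 : B p n ∈ R p hp := by
    refine prod_mem fun j hj => ?_
    have := mem_range.1 hj
    rw [div_eq_mul_inv]
    exact sub_mem (one_mem _) (mul_mem (mul_mem (nat_mem hp p)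
      (inv_lt hp (j + 1) (by omega) (by omega) _ (by simp))) h2)
  have m2 : (B p n)⁻¹ ∈ R p hp := by
    rw [B, ← prod_inv_distrib]
    refine prod_mem fun j hj => ?_
    have := mem_range.1 hj
    have u : ((p : ℚ) - (2 * j + 2))⁻¹ ∈ R p hp :=
      inv_lt hp (p - (2 * j + 2)) (by omega) (by omega) _
        (by rw [Nat.cast_sub (by omega)]; push_cast; ring)
    have e : (1 - (p : ℚ) * ((j : ℚ) + 1)⁻¹ / 2)⁻¹ = -(2 * j + 2) * ((p : ℚ) - (2 * j + 2))⁻¹ := by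
      have : (1 - (p : ℚ) * ((j : ℚ) + 1)⁻¹ / 2) = ((p : ℚ) - (2 * j + 2)) / -(2 * j + 2) := by
        field_simp; ring
      rw [this, inv_div, div_eq_mul_inv]
    rw [e]
    exact mul_mem (neg_mem (add_mem (mul_mem (nat_mem hp 2) (nat_mem hp j)) (nat_mem hp 2))) u
  refine ⟨(b + c * (2⁻¹) ^ 2) * (B p n)⁻¹ * (B p n + 4 ^ n), ?_, ?_⟩
  · exact mul_mem (mul_mem (add_mem hb (mul_mem hc (pow_mem h2 2))) m2)
      (add_mem m1 (pow_mem (nat_mem hp 4) n))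
  · rw [← eB, show (16 : ℚ) ^ n = (4 ^ n) ^ 2 by rw [← pow_mul, mul_comm, pow_mul]; norm_num]
    rw [e3, eA] at e2
    have : (p : ℚ) ^ 3 * (b + c * (2⁻¹) ^ 2) = B p n * (B p n - 4 ^ n) := by
      linear_combination -e2
    rw [← mul_assoc, ← mul_assoc, this]
    field_simp
    ring

theorem main1 (hp : p.Prime) (h3 : 3 < p) :
    M hp 6 (∑ i ∈ range p, (3 * (i : ℚ) ^ 2 + i) / 16 ^ i * D i -
      (-4 * (p : ℚ) ^ 4 * ((2 ^ (p - 1) - 1) / p) + 6 * (p : ℚ) ^ 5 * ((2 ^ (p - 1) - 1) / p) ^ 2)) := by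
  obtain ⟨n, hn⟩ : ∃ n, p = 2 * n + 1 := hp.odd_of_ne_two (by omega)
  have h2 : (2 : ℚ)⁻¹ ∈ R p hp := inv_lt hp 2 (by omega) (by omega) _ (by simp)
  have u3 : (3 : ℚ)⁻¹ ∈ R p hp := inv_lt hp 3 (by omega) (by omega) _ (by simp)
  have hp0 : (p : ℚ) ≠ 0 := by positivity
  obtain ⟨q, hq⟩ : ∃ q : ℤ, (2 : ℚ) ^ (2 * n) = 1 + p * q := by
    have hc : IsCoprime (2 : ℤ) p := by
      have : Nat.Coprime 2 p := (Nat.coprime_primes Nat.prime_two hp).2 (by omega)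
      exact Nat.isCoprime_iff_coprime.2 this
    obtain ⟨q, hq⟩ := (Int.ModEq.pow_card_sub_one_eq_one hp hc).symm.dvd
    refine ⟨q, ?_⟩
    rw [show p - 1 = 2 * n by omega] at hq
    have : (((2 : ℤ) ^ (2 * n) - 1 : ℤ) : ℚ) = ((p * q : ℤ) : ℚ) := by rw [hq]
    push_cast at this
    linarith
  obtain ⟨a, ha, e1⟩ := sum_y (hp := hp) n hn h3
  obtain ⟨b, hb, e2⟩ := morley (hp := hp) n hn h3
  have hS := S_eq (2 * n)
  rw [V_eq (2 * n) (n + 1) (by omega), ← hn] at hS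
  have hc : ((2 * n : ℕ) : ℚ) + 1 = p := by rw [hn]; push_cast; ring
  rw [hS, hc, show p - 1 = 2 * n by omega]
  have e16 : (16 : ℚ) ^ n = (2 ^ (2 * n)) ^ 2 := by
    rw [← pow_mul, show (16 : ℚ) = 2 ^ 4 by norm_num, ← pow_mul]; ring_nf
  have e4 : (4 : ℚ) ^ p = 4 * (2 ^ (2 * n)) ^ 2 := by
    rw [hn, pow_succ, ← pow_mul, show (4 : ℚ) = 2 ^ 2 by norm_num, ← pow_mul]; ring_nf
  have e5 : (16 : ℚ) ^ p = (4 ^ p) ^ 2 := by rw [← pow_mul, mul_comm, pow_mul]; norm_num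
  have hX : ((2 : ℚ) ^ (2 * n))⁻¹ ∈ R p hp := by rw [← inv_pow]; exact pow_mem h2 _
  have hX0 : (2 : ℚ) ^ (2 * n) ≠ 0 := by positivity
  have hy : ∑ k ∈ range (n + 1), y p k = (p : ℚ) ^ 3 * (a - 3 * b) - 3 * ((2 ^ (2 * n)) ^ 2 - 1) := by
    rw [← e16]; linear_combination e1 - 3 * e2
  have hqm : (q : ℚ) ∈ R p hp := intCast_mem _ q
  rw [hy, e5, e4]
  have hq' : ((2 : ℚ) ^ (2 * n) - 1) / p = q := by rw [hq]; field_simp; ring
  rw [hq']
  generalize (2 : ℚ) ^ (2 * n) = X at *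
  refine ⟨(2 * 3⁻¹ * (a - 3 * b) - 2 * q ^ 3 * (4 + 3 * p * q)) * X⁻¹ ^ 2, ?_, ?_⟩
  · exact mul_mem (sub_mem (mul_mem (mul_mem (nat_mem hp 2) u3) (sub_mem ha (mul_mem (nat_mem hp 3) hb)))
      (mul_mem (mul_mem (nat_mem hp 2) (pow_mem hqm 3)) (add_mem (nat_mem hp 4)
        (mul_mem (mul_mem (nat_mem hp 3) (nat_mem hp p)) hqm)))) (pow_mem hX 2)
  · field_simp
    rw [hq]; ring

end Pool.Agent.H.MP_4af00a_nt
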